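import Pool.Agent.Helper83.ToepProof

set_option autoImplicit false

namespace Pool.Agent.Results.MP_e73184_al.BandClassification

open Pool.Agent.Helper83.Toep

/-- For a fixed bandwidth `k`, the implication of the question (for all sizes `n`) holds exactly
when `k ≤ 1`. -/
theorem result (k : ℕ) :
    (∀ n : ℕ, 1 ≤ n → ∀ A : Matrix (Fin n) (Fin n) ℝ, Admissible n k A →
      (∀ l, 1 ≤ l → l ≤ k + 1 → Matrix.trace (A ^ l) ≤ 1) →
        ∀ l, 1 ≤ l → Matrix.trace (A ^ l) ≤ 1) ↔ k ≤ 1 :=
  Pool.Agent.Helper83.Toep.main k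

end Pool.Agent.Results.MP_e73184_al.BandClassification
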