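import Mathlib

namespace Pool.Agent.Results.MP_e73184_al.TraceCounterexample

/-- Admissible matrices for the parameters `n` and `k`: real `n × n` matrices with nonnegative
entries and all row and column sums at most `1`, whose entries vanish above the superdiagonal and
more than `k` places below the diagonal, and which on the lower band (distances `0, …, k` below the
diagonal) have entries `A i j = c (i - j)` for some nonnegative numbers `c 0, …, c k`. -/
def Admissible (n k : ℕ) (A : Matrix (Fin n) (Fin n) ℝ) : Prop :=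
  (∀ i j, 0 ≤ A i j) ∧
  (∀ j, ∑ i, A i j ≤ 1) ∧
  (∀ i, ∑ j, A i j ≤ 1) ∧
  (∀ i j : Fin n, (i : ℕ) + 2 ≤ (j : ℕ) → A i j = 0) ∧
  (∀ i j : Fin n, (j : ℕ) + k < (i : ℕ) → A i j = 0) ∧
  (∃ c : ℕ → ℝ, (∀ l, 0 ≤ c l) ∧
    ∀ i j : Fin n, (j : ℕ) ≤ (i : ℕ) → (i : ℕ) - (j : ℕ) ≤ k → A i j = c ((i : ℕ) - (j : ℕ)))

/-- For `n = 3` and `k = 2` there is an admissible matrix whose powers of exponents
`1, …, k + 1` all have trace less than `1`, while its fourth power has trace greater than `1`. -/
theorem result : ∃ A : Matrix (Fin 3) (Fin 3) ℝ, Admissible 3 2 A ∧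
    (∀ l : ℕ, 1 ≤ l → l ≤ 2 + 1 → (A ^ l).trace < 1) ∧ 1 < (A ^ 4).trace := by
  refine ⟨!![33/100, 66/100, 0; 0, 33/100, 66/100; 66/100, 0, 33/100], ?_, ?_, ?_⟩
  · refine ⟨?_, ?_, ?_, ?_, ?_, ?_⟩
    · intro i j
      fin_cases i <;> fin_cases j <;> norm_num [Matrix.cons_val]
    · intro j
      fin_cases j <;> norm_num [Fin.sum_univ_three, Matrix.cons_val_two, Matrix.vecHead, Matrix.vecTail]
    · intro i
      fin_cases i <;> norm_num [Fin.sum_univ_three, Matrix.cons_val_two, Matrix.vecHead, Matrix.vecTail]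
    · intro i j
      fin_cases i <;> fin_cases j <;> norm_num [Matrix.cons_val]
    · intro i j
      fin_cases i <;> fin_cases j <;> norm_num [Matrix.cons_val]
    · refine ⟨fun l => if l = 0 then 33/100 else if l = 2 then 66/100 else 0, ?_, ?_⟩
      · intro l
        dsimp only
        split_ifs <;> norm_num
      · intro i j
        fin_cases i <;> fin_cases j <;> norm_num [Matrix.cons_val]
  · intro l h1 h2
    have h : l = 1 ∨ l = 2 ∨ l = 3 := by omega
    rcases h with rfl | rfl | rfl <;>
      norm_num [pow_succ, Matrix.trace_fin_three, Matrix.mul_apply, Fin.sum_univ_three,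
        Matrix.cons_val_two, Matrix.vecHead, Matrix.vecTail]
  · norm_num [pow_succ, Matrix.trace_fin_three, Matrix.mul_apply, Fin.sum_univ_three,
      Matrix.cons_val_two, Matrix.vecHead, Matrix.vecTail]

end Pool.Agent.Results.MP_e73184_al.TraceCounterexample
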